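import Mathlib

/-!
# Abstract facts about spectra of operators
-/

noncomputable section

namespace Pool.Agent.RieszDisc

variable {E : Type*} [NormedAddCommGroup E] [NormedSpace ℂ E]

/-- The spectrum of a bounded operator on a complex normed space: the set of `w` such that
`w - T` is not invertible in the algebra of bounded operators. -/
def opSpectrum (T : E →L[ℂ] E) : Set ℂ := spectrum ℂ T

theorem opSpectrum_subset [CompleteSpace E] {T : E →L[ℂ] E} (hT : ‖T‖ ≤ 1) :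
    opSpectrum T ⊆ Metric.closedBall 0 1 := by
  intro w hw
  rw [mem_closedBall_zero_iff]
  refine (spectrum.norm_le_norm_mul_of_mem (𝕜 := ℂ) (A := E →L[ℂ] E) hw).trans ?_
  have h1 : ‖(1 : E →L[ℂ] E)‖ ≤ 1 := ContinuousLinearMap.norm_id_le
  exact mul_le_one₀ hT (norm_nonneg _) h1

theorem isClosed_opSpectrum [CompleteSpace E] (T : E →L[ℂ] E) : IsClosed (opSpectrum T) :=
  spectrum.isClosed T

theorem mem_opSpectrum_of {T : E →L[ℂ] E} {w : ℂ}
    (h : ∀ η > 0, ∃ ℓ : E → ℂ, (∀ k : E, ‖ℓ (w • k - T k)‖ ≤ η * ‖k‖) ∧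
      ∃ g : E, ‖g‖ ≤ 1 ∧ 1 / 2 ≤ ‖ℓ g‖) :
    w ∈ opSpectrum T := by
  unfold opSpectrum
  by_contra hcon
  rw [spectrum.notMem_iff] at hcon
  obtain ⟨u, hu⟩ := hcon
  set S : E →L[ℂ] E := ((u⁻¹ : (E →L[ℂ] E)ˣ) : E →L[ℂ] E) with hS
  have hinv : ∀ g : E, w • S g - T (S g) = g := by
    intro g
    have h1 : (u : E →L[ℂ] E) * S = 1 := Units.mul_inv u
    rw [hu] at h1
    have h2 := DFunLike.congr_fun h1 g
    exact h2
  obtain ⟨ℓ, hℓ, g, hg, hg1⟩ := h (1 / (4 * (‖S‖ + 1))) (by positivity)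
  have h1 := hℓ (S g)
  rw [hinv] at h1
  have hkn : ‖S g‖ ≤ ‖S‖ :=
    (S.le_opNorm g).trans (mul_le_of_le_one_right (norm_nonneg _) hg)
  have h4 : 1 / (4 * (‖S‖ + 1)) * ‖S g‖ ≤ 1 / 4 := by
    have : 0 < 4 * (‖S‖ + 1) := by positivity
    rw [div_mul_eq_mul_div, one_mul, div_le_div_iff₀ this (by norm_num)]
    nlinarith [norm_nonneg S]
  linarith

end Pool.Agent.RieszDisc
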