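import Mathlib

/-!
# Rajchman measures on the circle and the Hardy space `H^1_0`
-/

namespace Pool.Agent.RieszDisc

open MeasureTheory AddCircle Filter Topology

/-- `0 < 2 π`, as an instance. -/
instance fact_two_pi_pos : Fact (0 < 2 * Real.pi) := ⟨Real.two_pi_pos⟩

/-- The circle `𝕋 = ℝ / 2πℤ`. -/
abbrev Circ : Type := AddCircle (2 * Real.pi)

/-- Normalised Lebesgue measure on the circle. -/
noncomputable abbrev leb : Measure Circ := haarAddCircle

/-- The Fourier coefficient `∫ e^{-int} dμ(t)` of a measure. -/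
noncomputable def measCoeff (μ : Measure Circ) (n : ℤ) : ℂ := ∫ t, fourier (-n) t ∂μ

/-- A measure is Rajchman if its Fourier coefficients tend to `0` as `|n| → ∞`. -/
def IsRajchman (μ : Measure Circ) : Prop := Tendsto (measCoeff μ) cofinite (𝓝 0)

/-- The space `H^1_0`: integrable functions whose Fourier coefficients of index `≤ 0` vanish. -/
noncomputable def H10 : Submodule ℂ (Lp ℂ 1 leb) where
  carrier := {f | ∀ n : ℤ, n ≤ 0 → fourierCoeff (f : Circ → ℂ) n = 0}
  zero_mem' := by
    intro n _
    rw [fourierCoeff_congr_ae (Lp.coeFn_zero ℂ 1 leb)]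
    simp [fourierCoeff]
  add_mem' := by
    intro f g hf hg n hn
    rw [fourierCoeff_congr_ae (Lp.coeFn_add f g)]
    rw [fourierCoeff.add (L1.integrable_coeFn f) (L1.integrable_coeFn g), Pi.add_apply,
      hf n hn, hg n hn, add_zero]
  smul_mem' := by
    intro c f hf n hn
    rw [fourierCoeff_congr_ae (Lp.coeFn_smul c f)]
    rw [fourierCoeff.const_smul, hf n hn, smul_zero]

end Pool.Agent.RieszDisc
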