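import Pool.Agent.RieszDisc.Fun
import Pool.Agent.RieszDisc.Defs

/-!
# Approximate eigenfunctions from a block of frequencies
-/

noncomputable section

namespace Pool.Agent.RieszDisc

open MeasureTheory AddCircle Filter Topology Finset
open scoped ComplexConjugate

variable {ι : Type*} (n : ι → ℤ) (J : Finset ι)

/-- The average of the characters of a block. -/
def avg (t : Circ) : ℂ := (J.card : ℂ)⁻¹ * ∑ i ∈ J, fourier (n i) t

theorem continuous_avg : Continuous (avg n J) := by
  unfold avg
  exact continuous_const.mul (continuous_finsetSum _ fun i _ => map_continuous (fourier (n i)))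

theorem norm_fourier_apply (m : ℤ) (t : Circ) : ‖(fourier m t : ℂ)‖ = 1 := by
  rw [fourier_apply, Circle.norm_coe]

theorem norm_avg_le (t : Circ) : ‖avg n J t‖ ≤ 1 := by
  unfold avg
  rw [norm_mul, norm_inv, Complex.norm_natCast]
  have h : ‖∑ i ∈ J, fourier (n i) t‖ ≤ J.card := by
    refine (norm_sum_le _ _).trans ?_
    simp only [norm_fourier_apply, sum_const, nsmul_eq_mul, mul_one, le_refl]
  by_cases h0 : J.card = 0
  · rw [h0]; simp
  · have : (0 : ℝ) < J.card := by exact_mod_cast Nat.pos_of_ne_zero h0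
    rw [inv_mul_le_iff₀ this, mul_one]
    exact h

theorem integrable_cont {μ : Measure Circ} [IsProbabilityMeasure μ] {E : Type*}
    [NormedAddCommGroup E] {f : Circ → E} (hf : Continuous f) : Integrable f μ :=
  hf.integrable_of_hasCompactSupport (HasCompactSupport.of_compactSpace _)

theorem fourier_add_arg (m : ℤ) (x y : Circ) :
    (fourier m (x + y) : ℂ) = fourier m x * fourier m y := by
  simp only [fourier_apply, smul_add, toCircle_add, Circle.coe_mul]

variable {n J}

theorem avg_variance {μ : Measure Circ} [IsProbabilityMeasure μ] {α : ℝ}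
    (hJ : J.Nonempty)
    (h1 : ∀ i ∈ J, ∫ t, fourier (n i) t ∂μ = α)
    (h2 : ∀ i ∈ J, ∀ j ∈ J, i ≠ j → ∫ t, fourier (n i - n j) t ∂μ = (α : ℂ) ^ 2) (y : Circ) :
    ∫ x, ‖avg n J (y + x) - α * avg n J y‖ ^ 2 ∂μ ≤ (J.card : ℝ)⁻¹ := by
  classical
  have hcard : (0 : ℝ) < J.card := by exact_mod_cast hJ.card_pos
  set c : ι → ℂ := fun i => fourier (n i) y with hc
  set Z : ι → Circ → ℂ := fun i x => fourier (n i) x - α with hZ
  have hZc : ∀ i, Continuous (Z i) := fun i => (map_continuous (fourier (n i))).sub continuous_const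
  have hdiff : ∀ x, avg n J (y + x) - α * avg n J y = (J.card : ℂ)⁻¹ * ∑ i ∈ J, c i * Z i x := by
    intro x
    unfold avg
    simp only [hc, hZ, fourier_add_arg, mul_sub, sum_sub_distrib, ← sum_mul]
    ring
  have hG : ∀ i ∈ J, ∀ j ∈ J, ∫ x, Z i x * conj (Z j x) ∂μ =
      if i = j then (1 - (α : ℂ) ^ 2) else 0 := by
    intro i hi j hj
    have e : ∀ x, Z i x * conj (Z j x) =
        fourier (n i - n j) x - α * fourier (n i) x - α * conj (fourier (n j) x) + α ^ 2 := by
      intro x
      simp only [hZ]
      rw [map_sub, Complex.conj_ofReal, sub_eq_add_neg (n i), fourier_add, fourier_neg]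
      ring
    simp only [e]
    have i1 : Integrable (fun x : Circ => (fourier (n i - n j) x : ℂ)) μ :=
      integrable_cont (map_continuous _)
    have i2 : Integrable (fun x : Circ => (α : ℂ) * fourier (n i) x) μ :=
      integrable_cont (continuous_const.mul (map_continuous _))
    have i3 : Integrable (fun x : Circ => (α : ℂ) * conj (fourier (n j) x)) μ :=
      integrable_cont (continuous_const.mul (Complex.continuous_conj.comp (map_continuous _)))
    have i12 : Integrable (fun x : Circ => (fourier (n i - n j) x : ℂ) - α * fourier (n i) x) μ :=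
      i1.sub i2
    have i123 : Integrable (fun x : Circ => (fourier (n i - n j) x : ℂ) - α * fourier (n i) x -
      (α : ℂ) * conj (fourier (n j) x)) μ := i12.sub i3
    rw [integral_add i123 (integrable_const _), integral_sub i12 i3,
      integral_sub i1 i2, integral_const_mul, integral_const_mul, integral_conj, h1 i hi, h1 j hj,
      integral_const]
    simp only [probReal_univ, one_smul, Complex.conj_ofReal]
    split_ifs with hij
    · rw [hij, sub_self]
      simp only [fourier_zero]
      rw [integral_const]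
      simp only [probReal_univ, one_smul]
      ring
    · rw [h2 i hi j hj hij]
      ring
  -- the square of the norm
  have hsq : ∀ x, ((‖∑ i ∈ J, c i * Z i x‖ ^ 2 : ℝ) : ℂ) =
      ∑ i ∈ J, ∑ j ∈ J, (c i * conj (c j)) * (Z i x * conj (Z j x)) := by
    intro x
    have := Complex.mul_conj' (∑ i ∈ J, c i * Z i x)
    rw [Complex.ofReal_pow, ← this, map_sum, sum_mul_sum]
    refine sum_congr rfl fun i _ => sum_congr rfl fun j _ => ?_
    rw [map_mul]
    ring
  have hint : ∫ x, ‖∑ i ∈ J, c i * Z i x‖ ^ 2 ∂μ = J.card * (1 - α ^ 2) := by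
    have e1 : ((∫ x, ‖∑ i ∈ J, c i * Z i x‖ ^ 2 ∂μ : ℝ) : ℂ) =
        ((J.card * (1 - α ^ 2) : ℝ) : ℂ) := by
      rw [← integral_complex_ofReal]
      simp only [hsq]
      rw [integral_finsetSum]
      · have : ∀ i ∈ J, ∫ x, ∑ j ∈ J, (c i * conj (c j)) * (Z i x * conj (Z j x)) ∂μ =
            (1 - (α : ℂ) ^ 2) := by
          intro i hi
          rw [integral_finsetSum]
          · have h3 : ∀ j ∈ J, ∫ x, (c i * conj (c j)) * (Z i x * conj (Z j x)) ∂μ =
                if i = j then (1 - (α : ℂ) ^ 2) else 0 := by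
              intro j hj
              rw [integral_const_mul, hG i hi j hj]
              split_ifs with hij
              · rw [hij, Complex.mul_conj']
                simp only [hc, norm_fourier_apply]
                simp
              · rw [mul_zero]
            rw [sum_congr rfl h3, sum_ite_eq, if_pos hi]
          · intro j _
            exact (integrable_cont ((hZc i).mul (Complex.continuous_conj.comp (hZc j)))).const_mul _
        rw [sum_congr rfl this, sum_const, nsmul_eq_mul]
        push_cast
        ring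
      · intro i _
        refine integrable_finsetSum _ fun j _ => ?_
        exact (integrable_cont ((hZc i).mul (Complex.continuous_conj.comp (hZc j)))).const_mul _
    exact_mod_cast e1
  have hfin : ∀ x, ‖avg n J (y + x) - α * avg n J y‖ ^ 2 =
      ((J.card : ℝ)⁻¹) ^ 2 * ‖∑ i ∈ J, c i * Z i x‖ ^ 2 := by
    intro x
    rw [hdiff x, norm_mul, mul_pow, norm_inv, Complex.norm_natCast]
  simp only [hfin]
  rw [integral_const_mul, hint]
  have : ((J.card : ℝ)⁻¹) ^ 2 * (J.card * (1 - α ^ 2)) = (J.card : ℝ)⁻¹ * (1 - α ^ 2) := by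
    field_simp
  rw [this]
  refine mul_le_of_le_one_right (by positivity) ?_
  nlinarith [sq_nonneg α]

/-- The approximate eigenfunction estimate. -/
theorem approx_eigen {μ : Measure Circ} [IsProbabilityMeasure μ] {α : ℝ} (hα : 0 < α)
    (hα1 : α ≤ 1) (hJ : J.Nonempty)
    (h1 : ∀ i ∈ J, ∫ t, fourier (n i) t ∂μ = α)
    (h2 : ∀ i ∈ J, ∀ j ∈ J, i ≠ j → ∫ t, fourier (n i - n j) t ∂μ = (α : ℂ) ^ 2)
    {z : ℂ} (hz : 0 < z.re) {η C : ℝ} (hC : 0 ≤ C)
    (hmod : ∀ u v : ℂ, ‖u‖ ≤ 1 → ‖v‖ ≤ 1 → ‖hom z u - hom z v‖ ≤ η + C * ‖u - v‖ ^ 2)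
    (y : Circ) :
    ‖∫ x, hom z (avg n J (y + x)) ∂μ - (α : ℂ) ^ z * hom z (avg n J y)‖ ≤
      η + C * (J.card : ℝ)⁻¹ := by
  have hcont : Continuous fun x => avg n J (y + x) :=
    (continuous_avg n J).comp (continuous_const.add continuous_id)
  rw [← hom_smul z _ hα]
  have e : hom z (α * avg n J y) = ∫ _, hom z (α * avg n J y) ∂μ := by
    rw [integral_const]; simp
  have hi1 : Integrable (fun x => hom z (avg n J (y + x))) μ :=
    integrable_cont ((continuous_hom hz).comp hcont)
  have hi2 : Integrable (fun _ : Circ => hom z (α * avg n J y)) μ := integrable_const _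
  rw [e, ← integral_sub hi1 hi2]
  refine (norm_integral_le_integral_norm _).trans ?_
  have h3 : ∀ x, ‖hom z (avg n J (y + x)) - hom z (α * avg n J y)‖ ≤
      η + C * ‖avg n J (y + x) - α * avg n J y‖ ^ 2 := by
    intro x
    refine hmod _ _ (norm_avg_le n J _) ?_
    rw [norm_mul, Complex.norm_real, Real.norm_of_nonneg hα.le]
    exact mul_le_one₀ hα1 (norm_nonneg _) (norm_avg_le n J _)
  have hi : Integrable (fun x => ‖avg n J (y + x) - α * avg n J y‖ ^ 2) μ :=
    integrable_cont ((hcont.sub continuous_const).norm.pow 2)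
  calc ∫ x, ‖hom z (avg n J (y + x)) - hom z (α * avg n J y)‖ ∂μ
      ≤ ∫ x, (η + C * ‖avg n J (y + x) - α * avg n J y‖ ^ 2) ∂μ := by
        refine integral_mono ?_ ?_ h3
        · exact integrable_cont (((continuous_hom hz).comp hcont).sub continuous_const).norm
        · exact (integrable_const _).add (hi.const_mul _)
    _ = η + C * ∫ x, ‖avg n J (y + x) - α * avg n J y‖ ^ 2 ∂μ := by
        rw [integral_add (integrable_const _) (hi.const_mul _), integral_const_mul,
          integral_const]
        simp
    _ ≤ _ := by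
        have := avg_variance (μ := μ) hJ h1 h2 y
        have := mul_le_mul_of_nonneg_left this hC
        linarith

end Pool.Agent.RieszDisc
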