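import Pool.Agent.RieszDisc.Block

/-!
# The convolution operator on `H^1_0`
-/

noncomputable section

namespace Pool.Agent.RieszDisc

open MeasureTheory AddCircle Filter Topology Finset
open scoped ComplexConjugate

/-- Convolution of a function with a measure. -/
def cv (μ : Measure Circ) (f : Circ → ℂ) (x : Circ) : ℂ := ∫ y, f (x - y) ∂μ

variable {μ : Measure Circ} [IsProbabilityMeasure μ]

theorem mp_swap (μ : Measure Circ) [IsProbabilityMeasure μ] :
    MeasurePreserving (fun z : Circ × Circ => (z.2, -z.2 + z.1)) (leb.prod μ) (μ.prod leb) :=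
  measurePreserving_prod_neg_add_swap leb μ

theorem mp_sub (μ : Measure Circ) [IsProbabilityMeasure μ] :
    MeasurePreserving (fun z : Circ × Circ => z.1 - z.2) (leb.prod μ) leb := by
  have h := (measurePreserving_snd (μ := μ) (ν := leb)).comp (mp_swap μ)
  have e : (Prod.snd ∘ fun z : Circ × Circ => (z.2, -z.2 + z.1)) = fun z => z.1 - z.2 := by
    ext z
    show -z.2 + z.1 = z.1 - z.2
    abel
  rw [e] at h
  exact h

theorem integrable_prod_sub {f : Circ → ℂ} (hf : Integrable f leb) :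
    Integrable (fun z : Circ × Circ => f (z.1 - z.2)) (leb.prod μ) :=
  (mp_sub μ).integrable_comp_of_integrable hf

theorem integrable_cv {f : Circ → ℂ} (hf : Integrable f leb) : Integrable (cv μ f) leb :=
  (integrable_prod_sub hf).integral_prod_left

theorem cv_congr {f g : Circ → ℂ} (h : f =ᵐ[leb] g) : cv μ f =ᵐ[leb] cv μ g := by
  have h1 : ∀ᵐ z ∂(leb.prod μ), f (z.1 - z.2) = g (z.1 - z.2) :=
    (mp_sub μ).quasiMeasurePreserving.ae_eq_comp h
  have h2 := Measure.ae_ae_of_ae_prod h1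
  filter_upwards [h2] with x hx
  exact integral_congr_ae hx

theorem norm_cv_le {f : Circ → ℂ} (hf : Integrable f leb) :
    ∫ x, ‖cv μ f x‖ ∂leb ≤ ∫ x, ‖f x‖ ∂leb := by
  have h1 := integrable_prod_sub (μ := μ) hf
  calc ∫ x, ‖cv μ f x‖ ∂leb ≤ ∫ x, ∫ y, ‖f (x - y)‖ ∂μ ∂leb := by
        refine integral_mono (integrable_cv hf).norm h1.norm.integral_prod_left fun x => ?_
        exact norm_integral_le_integral_norm _
    _ = ∫ z, ‖f (z.1 - z.2)‖ ∂(leb.prod μ) := (integral_prod _ h1.norm).symm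
    _ = ∫ x, ‖f x‖ ∂leb := by
        conv_rhs => rw [← (mp_sub μ).map_eq]
        rw [integral_map (mp_sub μ).measurable.aemeasurable]
        rw [(mp_sub μ).map_eq]
        exact hf.norm.aestronglyMeasurable

theorem test_cv {f : Circ → ℂ} (hf : Integrable f leb) {φ : Circ → ℂ} (hφ : Continuous φ) :
    ∫ x, φ x * cv μ f x ∂leb = ∫ t, (∫ y, φ (t + y) ∂μ) * f t ∂leb := by
  obtain ⟨B, hB⟩ : ∃ B, ∀ x, ‖φ x‖ ≤ B := by
    obtain ⟨B, hB⟩ := (isCompact_range hφ).isBounded.exists_norm_le
    exact ⟨B, fun x => hB _ ⟨x, rfl⟩⟩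
  have h1 : Integrable (fun z : Circ × Circ => φ z.1 * f (z.1 - z.2)) (leb.prod μ) := by
    refine (integrable_prod_sub hf).bdd_mul ?_ (Eventually.of_forall fun z => hB z.1)
    exact (hφ.comp continuous_fst).aestronglyMeasurable
  have h2 : Integrable (fun z : Circ × Circ => φ (z.1 + z.2) * f z.2) (μ.prod leb) := by
    have h3 : Integrable (fun z : Circ × Circ => f z.2) (μ.prod leb) :=
      (measurePreserving_snd (μ := μ) (ν := leb)).integrable_comp_of_integrable hf
    refine h3.bdd_mul ?_ (Eventually.of_forall fun z => hB _)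
    exact (hφ.comp (continuous_fst.add continuous_snd)).aestronglyMeasurable
  calc ∫ x, φ x * cv μ f x ∂leb = ∫ x, ∫ y, φ x * f (x - y) ∂μ ∂leb := by
        congr 1
        ext x
        rw [integral_const_mul]
        rfl
    _ = ∫ z, φ z.1 * f (z.1 - z.2) ∂(leb.prod μ) := (integral_prod _ h1).symm
    _ = ∫ z, φ (z.1 + z.2) * f z.2 ∂(μ.prod leb) := by
        rw [← (mp_swap μ).map_eq]
        rw [integral_map (mp_swap μ).measurable.aemeasurable]
        · congr 1
          ext z
          show _ = φ (z.2 + (-z.2 + z.1)) * f (-z.2 + z.1)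
          rw [add_neg_cancel_left]
          congr 2
          abel
        · rw [(mp_swap μ).map_eq]
          exact h2.aestronglyMeasurable
    _ = ∫ t, ∫ y, φ (y + t) * f t ∂μ ∂leb := integral_prod_symm _ h2
    _ = _ := by
        congr 1
        ext t
        rw [integral_mul_const]
        simp only [add_comm]

theorem fourierCoeff_cv {f : Circ → ℂ} (hf : Integrable f leb) (m : ℤ) :
    fourierCoeff (cv μ f) m = measCoeff μ m * fourierCoeff f m := by
  unfold fourierCoeff
  simp only [smul_eq_mul]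
  rw [test_cv hf (map_continuous (fourier (-m)))]
  have : ∀ t : Circ, ∫ y, (fourier (-m) (t + y) : ℂ) ∂μ = fourier (-m) t * measCoeff μ m := by
    intro t
    simp only [fourier_add_arg]
    rw [integral_const_mul]
    rfl
  simp only [this]
  rw [← integral_const_mul]
  congr 1
  ext t
  ring

/-- Convolution with `μ` on `L^1`. -/
def cvL (μ : Measure Circ) [IsProbabilityMeasure μ] (f : Lp ℂ 1 leb) : Lp ℂ 1 leb :=
  Integrable.toL1 (cv μ f) (integrable_cv (L1.integrable_coeFn f))

theorem coeFn_cvL (f : Lp ℂ 1 leb) : (cvL μ f : Circ → ℂ) =ᵐ[leb] cv μ f :=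
  Integrable.coeFn_toL1 (integrable_cv (L1.integrable_coeFn f))

theorem cvL_add (f g : Lp ℂ 1 leb) : cvL μ (f + g) = cvL μ f + cvL μ g := by
  apply Lp.ext
  have h1 := cv_congr (μ := μ) (Lp.coeFn_add f g)
  have h2 := (integrable_prod_sub (μ := μ) (L1.integrable_coeFn f)).prod_right_ae
  have h3 := (integrable_prod_sub (μ := μ) (L1.integrable_coeFn g)).prod_right_ae
  refine (coeFn_cvL (f + g)).trans (h1.trans ?_)
  filter_upwards [h2, h3, coeFn_cvL (μ := μ) f, coeFn_cvL (μ := μ) g,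
    Lp.coeFn_add (cvL μ f) (cvL μ g)] with x h2 h3 h4 h5 h6
  rw [h6, Pi.add_apply, h4, h5]
  exact integral_add h2 h3

theorem cvL_smul (c : ℂ) (f : Lp ℂ 1 leb) : cvL μ (c • f) = c • cvL μ f := by
  apply Lp.ext
  have h1 := cv_congr (μ := μ) (Lp.coeFn_smul c f)
  refine (coeFn_cvL (c • f)).trans (h1.trans ?_)
  filter_upwards [coeFn_cvL (μ := μ) f, Lp.coeFn_smul c (cvL μ f)] with x h4 h5
  rw [h5, Pi.smul_apply, h4]
  exact integral_smul c _

theorem norm_cvL_le (f : Lp ℂ 1 leb) : ‖cvL μ f‖ ≤ ‖f‖ := by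
  rw [L1.norm_eq_integral_norm, L1.norm_eq_integral_norm]
  refine le_of_eq_of_le ?_ (norm_cv_le (μ := μ) (L1.integrable_coeFn f))
  refine integral_congr_ae ?_
  filter_upwards [coeFn_cvL (μ := μ) f] with x hx
  rw [hx]

theorem cvL_mem {f : Lp ℂ 1 leb} (hf : f ∈ H10) : cvL μ f ∈ H10 := by
  intro m hm
  rw [fourierCoeff_congr_ae (coeFn_cvL f), fourierCoeff_cv (L1.integrable_coeFn f), hf m hm,
    mul_zero]

/-- The convolution operator on `H^1_0`. -/
def convOp (μ : Measure Circ) [IsProbabilityMeasure μ] : H10 →L[ℂ] H10 :=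
  LinearMap.mkContinuous
    { toFun := fun f => ⟨cvL μ (f : Lp ℂ 1 leb), cvL_mem f.2⟩
      map_add' := fun f g => Subtype.ext (cvL_add _ _)
      map_smul' := fun c f => Subtype.ext (cvL_smul _ _) } 1 (by
    intro f
    rw [one_mul]
    exact norm_cvL_le _)

theorem convOp_apply (f : H10) :
    ((convOp μ f : Lp ℂ 1 leb) : Circ → ℂ) =ᵐ[leb] cv μ ((f : Lp ℂ 1 leb) : Circ → ℂ) :=
  coeFn_cvL _

theorem norm_convOp_le : ‖convOp μ‖ ≤ 1 :=
  LinearMap.mkContinuous_norm_le _ zero_le_one _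

end Pool.Agent.RieszDisc
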