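import Mathlib

/-!
# A homogeneous function on the disc
-/

noncomputable section

namespace Pool.Agent.RieszDisc

open Complex Filter Topology
open scoped ComplexConjugate

/-- The function `s ↦ conj s * |s| ^ (z - 1)`. -/
def hom (z s : ℂ) : ℂ := conj s * (‖s‖ : ℂ) ^ (z - 1)

theorem hom_zero (z : ℂ) : hom z 0 = 0 := by simp [hom]

theorem hom_one (z : ℂ) : hom z 1 = 1 := by simp [hom]

theorem norm_hom (z s : ℂ) (hs : s ≠ 0) : ‖hom z s‖ = ‖s‖ ^ z.re := by
  unfold hom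
  have h : 0 < ‖s‖ := norm_pos_iff.2 hs
  rw [norm_mul, RCLike.norm_conj, norm_cpow_eq_rpow_re_of_pos h, sub_re, one_re,
    Real.rpow_sub_one h.ne']
  field_simp

theorem norm_hom_le (z s : ℂ) (hz : 0 < z.re) : ‖hom z s‖ ≤ ‖s‖ ^ z.re := by
  by_cases hs : s = 0
  · rw [hs, hom_zero, norm_zero, Real.zero_rpow hz.ne']
  · exact (norm_hom z s hs).le

theorem norm_hom_le_one {z s : ℂ} (hz : 0 < z.re) (hs : ‖s‖ ≤ 1) : ‖hom z s‖ ≤ 1 :=
  (norm_hom_le z s hz).trans (Real.rpow_le_one (norm_nonneg _) hs hz.le)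

theorem continuous_hom {z : ℂ} (hz : 0 < z.re) : Continuous (hom z) := by
  rw [continuous_iff_continuousAt]
  intro s
  by_cases hs : s = 0
  · rw [hs, ContinuousAt, hom_zero]
    apply squeeze_zero_norm (fun t => norm_hom_le z t hz)
    have h1 : Tendsto (fun t : ℂ => ‖t‖ ^ z.re) (𝓝 0) (𝓝 (‖(0 : ℂ)‖ ^ z.re)) :=
      (continuous_norm.tendsto 0).rpow_const (Or.inr hz.le)
    rw [norm_zero, Real.zero_rpow hz.ne'] at h1
    exact h1
  · unfold hom
    have h : 0 < ‖s‖ := norm_pos_iff.2 hs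
    refine ContinuousAt.mul continuous_conj.continuousAt ?_
    refine ContinuousAt.cpow (Complex.continuous_ofReal.comp continuous_norm).continuousAt
      continuousAt_const ?_
    left
    simpa using h

theorem hom_smul (z s : ℂ) {α : ℝ} (hα : 0 < α) : hom z (α * s) = (α : ℂ) ^ z * hom z s := by
  unfold hom
  rw [norm_mul, norm_real, Real.norm_of_nonneg hα.le, ofReal_mul,
    mul_cpow_ofReal_nonneg hα.le (norm_nonneg _), map_mul, conj_ofReal]
  have h0 : (α : ℂ) ≠ 0 := by exact_mod_cast hα.ne'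
  have : (α : ℂ) ^ z = (α : ℂ) * (α : ℂ) ^ (z - 1) := by
    rw [cpow_sub _ _ h0, cpow_one]
    field_simp
  rw [this]
  ring

theorem hom_rot (z s u : ℂ) (hu : ‖u‖ = 1) : hom z (u * s) = conj u * hom z s := by
  unfold hom
  rw [norm_mul, hu, one_mul, map_mul]
  ring

theorem exists_exponent {w : ℂ} (hw0 : w ≠ 0) (hw1 : ‖w‖ < 1) {α : ℝ} (hα : 0 < α)
    (hα1 : α < 1) : ∃ z : ℂ, 0 < z.re ∧ (α : ℂ) ^ z = w := by
  have hlog : Real.log α < 0 := Real.log_neg hα hα1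
  have h0 : (α : ℂ) ≠ 0 := by exact_mod_cast hα.ne'
  refine ⟨Complex.log w / (Real.log α : ℂ), ?_, ?_⟩
  · rw [div_ofReal_re, log_re]
    exact div_pos_of_neg_of_neg (Real.log_neg (norm_pos_iff.2 hw0) hw1) hlog
  · rw [cpow_def_of_ne_zero h0, ← ofReal_log hα.le]
    have : (Real.log α : ℂ) ≠ 0 := by exact_mod_cast hlog.ne
    rw [mul_div_cancel₀ _ this, exp_log hw0]

theorem hom_modulus {z : ℂ} (hz : 0 < z.re) {η : ℝ} (hη : 0 < η) :
    ∃ C : ℝ, 0 ≤ C ∧ ∀ u v : ℂ, ‖u‖ ≤ 1 → ‖v‖ ≤ 1 →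
      ‖hom z u - hom z v‖ ≤ η + C * ‖u - v‖ ^ 2 := by
  have hc : IsCompact (Metric.closedBall (0 : ℂ) 1) := isCompact_closedBall _ _
  have huc := hc.uniformContinuousOn_of_continuous (continuous_hom hz).continuousOn
  rw [Metric.uniformContinuousOn_iff] at huc
  obtain ⟨δ, hδ, h⟩ := huc η hη
  refine ⟨2 / δ ^ 2, by positivity, fun u v hu hv => ?_⟩
  by_cases huv : ‖u - v‖ < δ
  · have := h u (by simpa using hu) v (by simpa using hv) (by rwa [dist_eq_norm])
    rw [dist_eq_norm] at this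
    have h2 : 0 ≤ 2 / δ ^ 2 * ‖u - v‖ ^ 2 := by positivity
    linarith
  · push Not at huv
    have h1 : ‖hom z u - hom z v‖ ≤ 2 :=
      (norm_sub_le _ _).trans (by linarith [norm_hom_le_one hz hu, norm_hom_le_one hz hv])
    have h2 : 2 ≤ 2 / δ ^ 2 * ‖u - v‖ ^ 2 := by
      rw [div_mul_eq_mul_div, le_div_iff₀ (by positivity)]
      have := pow_le_pow_left₀ hδ.le huv 2
      linarith
    linarith

end Pool.Agent.RieszDisc
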