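import Pool.Agent.RieszDisc.Test

/-!
# A Rajchman Riesz product with disc spectrum on `H^1_0`
-/

noncomputable section

namespace Pool.Agent.RieszDisc

open MeasureTheory AddCircle Filter Topology Finset
open scoped ComplexConjugate

/-- The frequencies `5 ^ j`. -/
def pw (j : ℕ) : ℤ := 5 ^ j

theorem block_data {α : ℝ} (hα : 0 < α) (hα1 : α < 1) {w : ℂ} (hw0 : w ≠ 0) (hw1 : ‖w‖ < 1)
    {η : ℝ} (hη : 0 < η) :
    ∃ (z : ℂ) (L p : ℕ) (C : ℝ), 0 < z.re ∧ (α : ℂ) ^ z = w ∧ 0 < L ∧ 0 ≤ C ∧
      (∀ u v : ℂ, ‖u‖ ≤ 1 → ‖v‖ ≤ 1 → ‖hom z u - hom z v‖ ≤ η / 2 + C * ‖u - v‖ ^ 2) ∧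
      C * (L : ℝ)⁻¹ ≤ η / 2 ∧
      1 / 2 ≤ ‖∫ t, ((peakInt p)⁻¹ * peak t ^ p : ℝ) * hom z (avg pw (range L) t) ∂leb‖ := by
  obtain ⟨z, hz, hzw⟩ := exists_exponent hw0 hw1 hα hα1
  obtain ⟨C, hC, hmod⟩ := hom_modulus hz (half_pos hη)
  obtain ⟨L, hL⟩ := exists_nat_gt (C / (η / 2))
  have hL' : (0 : ℝ) ≤ C / (η / 2) := by positivity
  have hL0 : 0 < L := by exact_mod_cast lt_of_le_of_lt hL' hL
  obtain ⟨p, hp⟩ := exists_peak (G := fun t => hom z (avg pw (range L) t))
    ((continuous_hom hz).comp (continuous_avg pw (range L))) (by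
      have : avg pw (range L) 0 = 1 := by
        unfold avg
        simp only [fourier_eval_zero, sum_const, card_range, nsmul_eq_mul, mul_one]
        exact inv_mul_cancel₀ (by exact_mod_cast hL0.ne')
      rw [this, hom_one])
  refine ⟨z, L, p, C, hz, hzw, hL0, hC, hmod, ?_, hp⟩
  have h1 : (0 : ℝ) < L := by exact_mod_cast hL0
  rw [div_lt_iff₀ (by positivity)] at hL
  rw [← div_eq_mul_inv, div_le_iff₀ h1]
  linarith

/-- The finset of indices of a block. -/
def blk (L : ℕ → ℕ) (k : ℕ) : Finset (Σ k : ℕ, Fin (L k)) :=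
  (univ : Finset (Fin (L k))).map ⟨Sigma.mk k, sigma_mk_injective⟩

theorem card_blk (L : ℕ → ℕ) (k : ℕ) : (blk L k).card = L k := by
  unfold blk
  rw [card_map, card_univ, Fintype.card_fin]

theorem mem_blk {L : ℕ → ℕ} {k : ℕ} {i : Σ k : ℕ, Fin (L k)} (hi : i ∈ blk L k) : i.1 = k := by
  unfold blk at hi
  rw [Finset.mem_map] at hi
  obtain ⟨j, _, rfl⟩ := hi
  rfl

theorem avg_blk (L : ℕ → ℕ) (N : ℕ → ℤ) (k : ℕ) (t : Circ) :
    avg (freq L N) (blk L k) t =
      fourier (scale L N k * N k) t * avg pw (range (L k)) (scale L N k • t) := by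
  unfold avg
  rw [card_blk, card_range]
  unfold blk
  rw [sum_map]
  rw [← Fin.sum_univ_eq_sum_range (α := ℂ) (fun j => (fourier (pw j) (scale L N k • t) : ℂ)),
    mul_left_comm]
  congr 1
  rw [mul_sum]
  refine Finset.sum_congr rfl ?_
  intro j _
  have h1 : (fourier (pw j) (scale L N k • t) : ℂ) = fourier (scale L N k * 5 ^ (j : ℕ)) t := by
    rw [fourier_apply, fourier_apply, smul_smul]
    congr 2
    exact congrArg (fun m : ℤ => m • t) (mul_comm _ _)
  rw [h1, ← fourier_add]
  congr 2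
  show scale L N k * (N k + 5 ^ (j : ℕ)) = _
  ring

/-- The pairing of the approximate eigenfunction with the test function. -/
theorem pairing_blk (L : ℕ → ℕ) (N : ℕ → ℤ) (k p : ℕ) {z : ℂ} (hz : 0 < z.re)
    (hq : 0 < scale L N k) (hN : (p : ℤ) < N k) :
    ∫ t, hom z (avg (freq L N) (blk L k) t) * (gH hq hN : Lp ℂ 1 leb) t ∂leb =
      ∫ t, ((peakInt p)⁻¹ * peak t ^ p : ℝ) * hom z (avg pw (range (L k)) t) ∂leb := by
  have h1 : ∫ t, hom z (avg (freq L N) (blk L k) t) * (gH hq hN : Lp ℂ 1 leb) t ∂leb =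
      ∫ t, (fun s => (((peakInt p)⁻¹ * peak s ^ p : ℝ) : ℂ) * hom z (avg pw (range (L k)) s))
        (scale L N k • t) ∂leb := by
    refine integral_congr_ae ?_
    filter_upwards [coeFn_gH hq hN] with t ht
    rw [ht, avg_blk, hom_rot _ _ _ (norm_fourier_apply _ _)]
    unfold gfun
    have h2 := Complex.mul_conj' (fourier (scale L N k * N k) t : ℂ)
    rw [norm_fourier_apply] at h2
    have h3 : (fourier (scale L N k * N k) t : ℂ) * conj (fourier (scale L N k * N k) t : ℂ) = 1 := by
      rw [h2]; simp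
    calc conj (fourier (scale L N k * N k) t : ℂ) *
          hom z (avg pw (range (L k)) (scale L N k • t)) *
          ((((peakInt p)⁻¹ * peak (scale L N k • t) ^ p : ℝ) : ℂ) *
            fourier (scale L N k * N k) t)
        = ((fourier (scale L N k * N k) t : ℂ) * conj (fourier (scale L N k * N k) t : ℂ)) *
          ((((peakInt p)⁻¹ * peak (scale L N k • t) ^ p : ℝ) : ℂ) *
            hom z (avg pw (range (L k)) (scale L N k • t))) := by ring
      _ = _ := by rw [h3, one_mul]
  rw [h1]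
  refine integral_comp_zsmul hq.ne' (E := ℂ)
    (f := fun s => (((peakInt p)⁻¹ * peak s ^ p : ℝ) : ℂ) * hom z (avg pw (range (L k)) s)) ?_
  exact (Complex.continuous_ofReal.comp (continuous_const.mul (continuous_peak.pow p))).mul
    ((continuous_hom hz).comp (continuous_avg pw (range (L k))))

theorem exists_measure (D : ℕ → ℂ) (hD : ∀ i, D i ≠ 0 ∧ ‖D i‖ < 1) :
    ∃ (μ : Measure Circ) (_ : IsProbabilityMeasure μ), IsRajchman μ ∧
      ∀ i, D i ∈ opSpectrum (convOp μ) := by
  classical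
  set W : ℕ → ℂ := fun k => D (Nat.unpair k).1 with hW
  set η : ℕ → ℝ := fun k => 1 / ((Nat.unpair k).2 + 1) with hη
  set α : ℕ → ℝ := fun k => 1 / ((k : ℝ) + 2) with hα
  have hαpos : ∀ k, 0 < α k := fun k => by positivity
  have hαhalf : ∀ k, α k ≤ 1 / 2 := by
    intro k
    simp only [hα]
    apply one_div_le_one_div_of_le (by norm_num)
    have : (0 : ℝ) ≤ k := Nat.cast_nonneg k
    linarith
  have hηpos : ∀ k, 0 < η k := fun k => by positivity
  choose z L p C hz hzw hL hC hmod hCL hpk using fun k =>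
    block_data (hαpos k) (lt_of_le_of_lt (hαhalf k) (by norm_num)) (hD (Nat.unpair k).1).1
      (hD (Nat.unpair k).1).2 (hηpos k)
  set N : ℕ → ℤ := fun k => 5 ^ L k + p k + 1 with hNdef
  have hN : ∀ k, 5 ^ L k ≤ N k := fun k => by
    simp only [hNdef]
    have : (0 : ℤ) ≤ p k := by positivity
    linarith
  have hNp : ∀ k, (p k : ℤ) < N k := fun k => by
    simp only [hNdef]
    have : (0 : ℤ) < 5 ^ L k := by positivity
    linarith
  have hdis := dissoc_freq L N hN
  set a : (Σ k : ℕ, Fin (L k)) → ℝ := fun i => α i.1 with ha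
  have ha1 : ∀ i, 0 ≤ a i ∧ a i ≤ 1 / 2 := fun i => ⟨(hαpos _).le, hαhalf _⟩
  obtain ⟨μ, hμ, hμ1, hμ2⟩ := exists_riesz hdis ha1
  refine ⟨μ, hμ, ?_, ?_⟩
  · refine rajchman_of_riesz ha1 ?_ hμ1 hμ2
    intro δ hδ
    obtain ⟨K, hK⟩ := exists_nat_gt (1 / δ)
    have hsub : {i | δ ≤ a i} ⊆ ((range K).sigma fun k => (univ : Finset (Fin (L k))) :
        Finset (Σ k : ℕ, Fin (L k))) := by
      intro i hi
      rw [Finset.mem_coe, mem_sigma]
      refine ⟨mem_range.2 ?_, mem_univ _⟩
      by_contra hcon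
      push Not at hcon
      have h1 : (K : ℝ) ≤ i.1 := by exact_mod_cast hcon
      have h2 : δ ≤ 1 / ((i.1 : ℝ) + 2) := hi
      have h3 : (0 : ℝ) < (i.1 : ℝ) + 2 := by positivity
      rw [le_div_iff₀ h3] at h2
      rw [div_lt_iff₀ hδ] at hK
      nlinarith
    exact (Finset.finite_toSet _).subset hsub
  · intro i
    apply mem_spectrum_of
    intro ε hε
    obtain ⟨m, hm⟩ := exists_nat_gt (1 / ε)
    set k := Nat.pair i m with hk
    have hWk : W k = D i := by simp only [hW, hk, Nat.unpair_pair]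
    have hηk : η k ≤ ε := by
      simp only [hη, hk, Nat.unpair_pair]
      rw [div_lt_iff₀ hε] at hm
      rw [div_le_iff₀ (by positivity)]
      nlinarith
    have hq := scale_pos L N hN k
    have hJ : (blk L k).Nonempty := by
      rw [← card_pos, card_blk]
      exact hL k
    refine ⟨fun t => hom (z k) (avg (freq L N) (blk L k) t),
      (continuous_hom (hz k)).comp (continuous_avg _ _), ?_, gH hq (hNp k), norm_gH hq (hNp k), ?_⟩
    · intro t
      have h1 : ∀ i ∈ blk L k, ∫ t, fourier (freq L N i) t ∂μ = (α k : ℂ) := by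
        intro i hi
        have h := hμ1 {i} (fun _ => -1) (by simp)
        simp only [sum_singleton, prod_singleton] at h
        unfold measCoeff at h
        rw [show -(-1 * freq L N i) = freq L N i by ring] at h
        rw [h, wgt, if_neg (by norm_num)]
        simp only [ha, mem_blk hi]
      have h2 : ∀ i ∈ blk L k, ∀ j ∈ blk L k, i ≠ j →
          ∫ t, fourier (freq L N i - freq L N j) t ∂μ = (α k : ℂ) ^ 2 := by
        intro i hi j hj hij
        have h := hμ1 {i, j} (fun l => if l = i then -1 else 1) (by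
          intro l _
          split_ifs <;> simp)
        rw [sum_pair hij, prod_pair hij] at h
        rw [if_pos rfl, if_neg hij.symm] at h
        unfold measCoeff at h
        rw [show -(-1 * freq L N i + 1 * freq L N j) = freq L N i - freq L N j by ring] at h
        rw [h, wgt, wgt, if_neg (by norm_num), if_neg (by norm_num)]
        simp only [ha, mem_blk hi, mem_blk hj]
        ring
      have h3 := approx_eigen (μ := μ) (hαpos k) ((hαhalf k).trans (by norm_num)) hJ h1 h2
        (hz k) (hC k) (hmod k) t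
      rw [card_blk, hzw k] at h3
      have h4 : D (Nat.unpair k).1 = D i := hWk
      rw [h4] at h3
      refine h3.trans ?_
      have := hCL k
      linarith
    · rw [pairing_blk L N k (p k) (hz k) hq (hNp k)]
      exact hpk k

/-- **Main theorem.** -/
theorem main : ∃ (μ : Measure Circ) (_ : IsProbabilityMeasure μ), IsRajchman μ ∧
    opSpectrum (convOp μ) = Metric.closedBall 0 1 := by
  set U : Set ℂ := Metric.ball 0 1 ∩ {0}ᶜ with hU
  have hne : Nonempty U := ⟨⟨1 / 2, by
    constructor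
    · rw [mem_ball_zero_iff]; norm_num
    · simp⟩⟩
  set D : ℕ → ℂ := fun i => (TopologicalSpace.denseSeq U i : ℂ) with hD
  obtain ⟨μ, hμ, hR, hspec⟩ := exists_measure D (by
    intro i
    have h := (TopologicalSpace.denseSeq U i).2
    refine ⟨?_, by simpa using h.1⟩
    intro h0
    exact h.2 h0)
  refine ⟨μ, hμ, hR, ?_⟩
  apply Set.Subset.antisymm (opSpectrum_subset norm_convOp_le)
  have hcl : IsClosed (opSpectrum (convOp μ)) := isClosed_opSpectrum _
  have h1 : U ⊆ opSpectrum (convOp μ) := by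
    have h2 : IsClosed ((fun x : U => (x : ℂ)) ⁻¹' opSpectrum (convOp μ)) :=
      hcl.preimage continuous_subtype_val
    have h3 : (fun x : U => (x : ℂ)) ⁻¹' opSpectrum (convOp μ) = Set.univ := by
      apply Set.eq_univ_of_univ_subset
      rw [← (TopologicalSpace.denseRange_denseSeq U).closure_eq]
      apply closure_minimal _ h2
      rintro _ ⟨i, rfl⟩
      exact hspec i
    intro x hx
    have : (⟨x, hx⟩ : U) ∈ (fun x : U => (x : ℂ)) ⁻¹' opSpectrum (convOp μ) := by
      rw [h3]; trivial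
    exact this
  have h4 : Metric.ball (0 : ℂ) 1 ⊆ opSpectrum (convOp μ) := by
    have h5 : Metric.ball (0 : ℂ) 1 ⊆ closure U :=
      (dense_compl_singleton (0 : ℂ)).open_subset_closure_inter Metric.isOpen_ball
    exact h5.trans (closure_minimal h1 hcl)
  rw [← closure_ball (0 : ℂ) one_ne_zero]
  exact closure_minimal h4 hcl

end Pool.Agent.RieszDisc
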