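import Mathlib

/-!
# Mixed radix uniqueness and dissociate families of frequencies
-/

namespace Pool.Agent.RieszDisc

open Finset

theorem mixed_radix (K : ℕ) : ∀ (M s : ℕ → ℤ), (∀ k < K, |s k| < M k) →
    ∑ k ∈ range K, (∏ i ∈ range k, M i) * s k = 0 → ∀ k < K, s k = 0 := by
  induction K with
  | zero => intro M s _ _ k hk; omega
  | succ K ih =>
    intro M s hs h
    rw [sum_range_succ'] at h
    have e : ∀ k, (∏ i ∈ range (k + 1), M i) = M 0 * ∏ i ∈ range k, M (i + 1) := by
      intro k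
      rw [prod_range_succ', mul_comm]
    simp only [e, mul_assoc] at h
    rw [← mul_sum, prod_range_zero, one_mul] at h
    have hd : M 0 ∣ s 0 := by
      refine ⟨-∑ k ∈ range K, (∏ i ∈ range k, M (i + 1)) * s (k + 1), ?_⟩
      linarith
    have h0 : s 0 = 0 := Int.eq_zero_of_abs_lt_dvd hd (hs 0 (by omega))
    have hM : M 0 ≠ 0 := by
      have := hs 0 (by omega)
      have h1 := abs_nonneg (s 0)
      omega
    rw [h0, add_zero] at h
    have h' := (mul_eq_zero.1 h).resolve_left hM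
    have hi := ih (fun i => M (i + 1)) (fun i => s (i + 1)) (fun k hk => hs (k + 1) (by omega)) h'
    intro k hk
    rcases k with _ | k
    · exact h0
    · exact hi k (by omega)

/-- A family of integers is dissociate. -/
def Dissoc {ι : Type*} (n : ι → ℤ) : Prop :=
  ∀ (s : Finset ι) (ε : ι → ℤ), (∀ i ∈ s, |ε i| ≤ 2) → ∑ i ∈ s, ε i * n i = 0 → ∀ i ∈ s, ε i = 0

/-- Block dissociation: the frequencies `N + 5 ^ j`. -/
theorem block_dissoc (L : ℕ) (N : ℤ) (hN : 5 ^ L ≤ N) (ε : ℕ → ℤ) (hε : ∀ j < L, |ε j| ≤ 2)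
    (h : ∑ j ∈ range L, ε j * (N + 5 ^ j) = 0) : ∀ j < L, ε j = 0 := by
  have hF : |∑ j ∈ range L, ε j * 5 ^ j| < 5 ^ L := by
    have h1 : |∑ j ∈ range L, ε j * 5 ^ j| ≤ ∑ j ∈ range L, 2 * (5 : ℤ) ^ j := by
      refine (abs_sum_le_sum_abs _ _).trans (sum_le_sum fun j hj => ?_)
      rw [abs_mul, abs_of_pos (show (0 : ℤ) < 5 ^ j by positivity)]
      exact mul_le_mul_of_nonneg_right (hε j (mem_range.1 hj)) (by positivity)
    have h2 : ∀ L : ℕ, ∑ j ∈ range L, 2 * (5 : ℤ) ^ j < 5 ^ L := by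
      intro L
      induction L with
      | zero => simp
      | succ L ih =>
        have : (0 : ℤ) < 5 ^ L := by positivity
        rw [sum_range_succ, pow_succ]
        linarith
    exact h1.trans_lt (h2 L)
  have hsplit : N * (∑ j ∈ range L, ε j) + ∑ j ∈ range L, ε j * 5 ^ j = 0 := by
    rw [← h, mul_sum, ← sum_add_distrib]
    refine sum_congr rfl fun j _ => by ring
  have hE : (∑ j ∈ range L, ε j) = 0 := by
    by_contra hne
    have h1 : 1 ≤ |∑ j ∈ range L, ε j| := Int.one_le_abs hne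
    have h2 : |N * (∑ j ∈ range L, ε j)| < 5 ^ L := by
      have : N * (∑ j ∈ range L, ε j) = -∑ j ∈ range L, ε j * 5 ^ j := by linarith
      rw [this, abs_neg]
      exact hF
    rw [abs_mul] at h2
    have h3 : N ≤ |N| := le_abs_self N
    have h5 : (0 : ℤ) < 5 ^ L := by positivity
    nlinarith
  rw [hE, mul_zero, zero_add] at hsplit
  refine mixed_radix L (fun _ => 5) ε (fun k hk => lt_of_le_of_lt (hε k hk) (by norm_num)) ?_
  rw [← hsplit]
  refine sum_congr rfl fun j _ => ?_
  rw [prod_const, card_range]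
  ring

section Freq

variable (L : ℕ → ℕ) (N : ℕ → ℤ)

/-- Modulus of the `i`-th block. -/
def modulus (i : ℕ) : ℤ := 2 * (∑ j ∈ range (L i), (N i + 5 ^ j)) + 1

/-- Scale of the `k`-th block. -/
def scale (k : ℕ) : ℤ := ∏ i ∈ range k, modulus L N i

/-- The frequencies of the Riesz product. -/
def freq (i : Σ k : ℕ, Fin (L k)) : ℤ := scale L N i.1 * (N i.1 + 5 ^ (i.2 : ℕ))

theorem modulus_pos (hN : ∀ k, 5 ^ L k ≤ N k) (i : ℕ) : 0 < modulus L N i := by
  unfold modulus
  have : 0 ≤ ∑ j ∈ range (L i), (N i + 5 ^ j) := by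
    refine sum_nonneg fun j _ => ?_
    have := hN i
    have h5 : (0 : ℤ) < 5 ^ L i := by positivity
    have h6 : (0 : ℤ) < 5 ^ j := by positivity
    linarith
  omega

theorem scale_pos (hN : ∀ k, 5 ^ L k ≤ N k) (k : ℕ) : 0 < scale L N k :=
  prod_pos fun i _ => modulus_pos L N hN i

theorem dissoc_freq (hN : ∀ k, 5 ^ L k ≤ N k) : Dissoc (freq L N) := by
  classical
  intro s ε hε h i hi
  obtain ⟨K, hK⟩ : ∃ K : ℕ, ∀ i ∈ s, i.1 < K := by
    refine ⟨s.sup (fun i => i.1) + 1, fun i hi => ?_⟩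
    have := Finset.le_sup (f := fun i : (Σ k : ℕ, Fin (L k)) => i.1) hi
    exact Nat.lt_succ_of_le this
  -- extension by zero
  set η : (Σ k : ℕ, Fin (L k)) → ℤ := fun i => if i ∈ s then ε i else 0 with hη
  have hη2 : ∀ i, |η i| ≤ 2 := by
    intro i
    simp only [hη]
    split_ifs with h
    · exact hε i h
    · simp
  have hsum : ∑ k ∈ range K, ∑ j : Fin (L k), η ⟨k, j⟩ * freq L N ⟨k, j⟩ = 0 := by
    rw [← Finset.sum_sigma (range K) (fun k => (univ : Finset (Fin (L k))))
      (fun i => η i * freq L N i), ← h]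
    have h1 : ∑ i ∈ s, ε i * freq L N i = ∑ i ∈ s, η i * freq L N i := by
      refine sum_congr rfl fun i hi => ?_
      simp only [hη, if_pos hi]
    rw [h1]
    symm
    apply Finset.sum_subset
    · intro i hi
      rw [mem_sigma]
      exact ⟨mem_range.2 (hK i hi), mem_univ _⟩
    · intro i _ hi
      simp only [hη, if_neg hi, zero_mul]
  -- block sums
  set b : ℕ → ℕ → ℤ := fun k j => if hj : j < L k then η ⟨k, ⟨j, hj⟩⟩ else 0 with hb
  have hb2 : ∀ k j, |b k j| ≤ 2 := by
    intro k j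
    simp only [hb]
    split_ifs
    · exact hη2 _
    · simp
  have hblock : ∀ k, ∑ j : Fin (L k), η ⟨k, j⟩ * freq L N ⟨k, j⟩ =
      scale L N k * ∑ j ∈ range (L k), b k j * (N k + 5 ^ j) := by
    intro k
    rw [← Fin.sum_univ_eq_sum_range (fun j => b k j * (N k + 5 ^ j)), mul_sum]
    refine sum_congr rfl fun j _ => ?_
    simp only [hb, j.isLt, dif_pos, freq]
    ring
  simp only [hblock] at hsum
  have hzero := mixed_radix K (modulus L N)
    (fun k => ∑ j ∈ range (L k), b k j * (N k + 5 ^ j)) (by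
      intro k _
      have h1 : |∑ j ∈ range (L k), b k j * (N k + 5 ^ j)| ≤
          ∑ j ∈ range (L k), 2 * (N k + 5 ^ j) := by
        refine (abs_sum_le_sum_abs _ _).trans (sum_le_sum fun j _ => ?_)
        have hpos : 0 < N k + 5 ^ j := by
          have := hN k
          have h5 : (0 : ℤ) < 5 ^ L k := by positivity
          have h6 : (0 : ℤ) < 5 ^ j := by positivity
          linarith
        rw [abs_mul, abs_of_pos hpos]
        exact mul_le_mul_of_nonneg_right (hb2 k j) hpos.le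
      rw [← mul_sum] at h1
      unfold modulus
      omega) hsum
  have hk := hzero i.1 (hK i hi)
  have hj := block_dissoc (L i.1) (N i.1) (hN i.1) (b i.1) (fun j _ => hb2 _ _) hk i.2 i.2.isLt
  simp only [hb, i.2.isLt, dif_pos] at hj
  have : η i = 0 := hj
  simpa only [hη, if_pos hi] using this

end Freq

end Pool.Agent.RieszDisc
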