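import Pool.Agent.RieszDisc.Radix
import Pool.Agent.RieszDisc.Defs

/-!
# Riesz products over dissociate families
-/

noncomputable section

namespace Pool.Agent.RieszDisc

open MeasureTheory AddCircle Filter Topology Finset

variable {ι : Type*} (n : ι → ℤ) (a : ι → ℝ)

/-- Partial products of the Riesz product. -/
def dens (s : Finset ι) (t : Circ) : ℝ := ∏ i ∈ s, (1 + 2 * a i * (fourier (n i) t).re)

theorem continuous_dens (s : Finset ι) : Continuous (dens n a s) := by
  unfold dens
  refine continuous_finsetProd _ fun i _ => ?_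
  exact continuous_const.add (continuous_const.mul
    (Complex.continuous_re.comp (map_continuous (fourier (n i)))))

theorem dens_nonneg (ha : ∀ i, 0 ≤ a i ∧ a i ≤ 1 / 2) (s : Finset ι) (t : Circ) :
    0 ≤ dens n a s t := by
  refine prod_nonneg fun i _ => ?_
  have h1 : |(fourier (n i) t).re| ≤ 1 := by
    refine (Complex.abs_re_le_norm _).trans ?_
    rw [fourier_apply, Circle.norm_coe]
  have h2 := (abs_le.1 h1).1
  nlinarith [ha i]

/-- Fourier coefficients of the partial products. -/
def cf (s : Finset ι) (m : ℤ) : ℂ := ∫ t, fourier (-m) t * (dens n a s t : ℂ) ∂leb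

theorem integrable_cf (s : Finset ι) (m : ℤ) :
    Integrable (fun t => fourier (-m) t * (dens n a s t : ℂ)) leb := by
  apply Continuous.integrable_of_hasCompactSupport
  · exact (map_continuous (fourier (-m))).mul
      (Complex.continuous_ofReal.comp (continuous_dens n a s))
  · exact HasCompactSupport.of_compactSpace _

theorem integral_fourier (m : ℤ) : ∫ t, fourier (-m) t ∂leb = if m = 0 then 1 else 0 := by
  have h := fourierCoeff_fourier (T := 2 * Real.pi) 0
  have h2 := congrFun h m
  rw [fourierCoeff] at h2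
  rw [Pi.single_apply] at h2
  rw [← h2]
  congr 1
  ext t
  rw [fourier_zero, smul_eq_mul, mul_one]

theorem cf_empty (m : ℤ) : cf n a ∅ m = if m = 0 then 1 else 0 := by
  rw [← integral_fourier]
  unfold cf dens
  simp

open Classical in
theorem cf_insert {s : Finset ι} {i : ι} (hi : i ∉ s) (m : ℤ) :
    cf n a (insert i s) m = cf n a s m + a i * cf n a s (m - n i) + a i * cf n a s (m + n i) := by
  have h : ∀ t, fourier (-m) t * (dens n a (insert i s) t : ℂ) =
      fourier (-m) t * (dens n a s t : ℂ) +
        (a i : ℂ) * (fourier (-(m - n i)) t * (dens n a s t : ℂ)) +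
        (a i : ℂ) * (fourier (-(m + n i)) t * (dens n a s t : ℂ)) := by
    intro t
    have e1 : (fourier (-(m - n i)) t : ℂ) = fourier (-m) t * fourier (n i) t := by
      rw [← fourier_add]; congr 2; ring
    have e2 : (fourier (-(m + n i)) t : ℂ) = fourier (-m) t * fourier (-n i) t := by
      rw [← fourier_add]; congr 2; ring
    have e3 : (2 * ((fourier (n i) t).re : ℂ)) = fourier (n i) t + fourier (-n i) t := by
      rw [fourier_neg]
      have := Complex.add_conj (fourier (n i) t)
      rw [this]
      push_cast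
      ring
    have e4 : (dens n a (insert i s) t : ℂ) =
        (1 + (a i : ℂ) * (2 * ((fourier (n i) t).re : ℂ))) * (dens n a s t : ℂ) := by
      unfold dens
      rw [prod_insert hi]
      push_cast
      ring
    rw [e4, e3, e1, e2]
    ring
  unfold cf
  simp only [h]
  rw [integral_add, integral_add, integral_const_mul, integral_const_mul]
  · exact integrable_cf n a s m
  · exact (integrable_cf n a s (m - n i)).const_mul _
  · exact (integrable_cf n a s m).add ((integrable_cf n a s (m - n i)).const_mul _)
  · exact (integrable_cf n a s (m + n i)).const_mul _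

/-- The weight of a coefficient in `{-1, 0, 1}`. -/
def wgt (x : ℝ) (e : ℤ) : ℂ := if e = 0 then 1 else (x : ℂ)

variable {n a}

open Classical in
/-- Uniqueness of representations. -/
theorem Dissoc.unique (hn : Dissoc n) {s : Finset ι} {ε η : ι → ℤ} (hε : ∀ i ∈ s, |ε i| ≤ 1)
    (hη : ∀ i ∈ s, |η i| ≤ 1) (h : ∑ i ∈ s, ε i * n i = ∑ i ∈ s, η i * n i) :
    ∀ i ∈ s, ε i = η i := by
  have h1 := hn s (fun i => ε i - η i) (fun i hi => by
    have h1 := abs_le.1 (hε i hi)
    have h2 := abs_le.1 (hη i hi)
    rw [abs_le]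
    constructor <;> linarith) (by
    simp only [sub_mul, sum_sub_distrib, h, sub_self])
  intro i hi
  have := h1 i hi
  linarith

theorem abs_le_one_cases {e : ℤ} (h : |e| ≤ 1) : e = 0 ∨ e = 1 ∨ e = -1 := by
  have := abs_le.1 h
  omega

open Classical in
/-- The Fourier coefficients of the partial products. -/
theorem cf_eq (hn : Dissoc n) (s : Finset ι) : ∀ m : ℤ,
    (∀ ε : ι → ℤ, (∀ i ∈ s, |ε i| ≤ 1) → ∑ i ∈ s, ε i * n i = m →
      cf n a s m = ∏ i ∈ s, wgt (a i) (ε i)) ∧
    ((∀ ε : ι → ℤ, (∀ i ∈ s, |ε i| ≤ 1) → ∑ i ∈ s, ε i * n i ≠ m) → cf n a s m = 0) := by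
  induction s using Finset.induction_on with
  | empty =>
    intro m
    constructor
    · intro ε _ h
      rw [sum_empty] at h
      rw [cf_empty, if_pos h.symm, prod_empty]
    · intro h
      rw [cf_empty, if_neg]
      intro h0
      exact h 0 (by simp) (by simp [h0])
  | insert i s hi ih =>
    intro m
    -- a representation of `m - e * n i` over `s` extends
    have ext : ∀ (e : ℤ), |e| ≤ 1 → ∀ η : ι → ℤ, (∀ j ∈ s, |η j| ≤ 1) →
        ∑ j ∈ s, η j * n j = m - e * n i →
        (∀ j ∈ insert i s, |(Function.update η i e) j| ≤ 1) ∧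
          ∑ j ∈ insert i s, (Function.update η i e) j * n j = m := by
      intro e he η hη hs
      constructor
      · intro j hj
        by_cases hji : j = i
        · rw [hji, Function.update_self]; exact he
        · rw [Function.update_of_ne hji]
          exact hη j ((mem_insert.1 hj).resolve_left hji)
      · rw [sum_insert hi, Function.update_self]
        have : ∑ j ∈ s, (Function.update η i e) j * n j = ∑ j ∈ s, η j * n j := by
          refine sum_congr rfl fun j hj => ?_
          rw [Function.update_of_ne (ne_of_mem_of_not_mem hj hi)]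
        rw [this, hs]
        ring
    constructor
    · intro ε hε hm
      have hεs : ∀ j ∈ s, |ε j| ≤ 1 := fun j hj => hε j (mem_insert_of_mem hj)
      have hεi := hε i (mem_insert_self i s)
      rw [sum_insert hi] at hm
      have hmain : cf n a s (m - ε i * n i) = ∏ j ∈ s, wgt (a j) (ε j) :=
        (ih _).1 ε hεs (by rw [← hm]; ring)
      have hother : ∀ e : ℤ, |e| ≤ 1 → e ≠ ε i → cf n a s (m - e * n i) = 0 := by
        intro e he hne
        apply (ih _).2
        intro η hη hs
        obtain ⟨h1, h2⟩ := ext e he η hη hs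
        have h3 : ∑ j ∈ insert i s, ε j * n j = m := by rw [sum_insert hi, hm]
        have := hn.unique h1 hε (h2.trans h3.symm) i (mem_insert_self i s)
        rw [Function.update_self] at this
        exact hne this
      rw [cf_insert n a hi, prod_insert hi]
      have q0 : cf n a s m = cf n a s (m - 0 * n i) := by rw [zero_mul, sub_zero]
      have q1 : cf n a s (m - n i) = cf n a s (m - 1 * n i) := by rw [one_mul]
      have q2 : cf n a s (m + n i) = cf n a s (m - (-1) * n i) := by congr 1; ring
      rw [q0, q1, q2]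
      rcases abs_le_one_cases hεi with h0 | h0 | h0
      · rw [hother 1 (by norm_num) (by rw [h0]; norm_num),
          hother (-1) (by norm_num) (by rw [h0]; norm_num)]
        rw [h0] at hmain
        rw [hmain, h0]
        simp [wgt]
      · rw [hother 0 (by norm_num) (by rw [h0]; norm_num),
          hother (-1) (by norm_num) (by rw [h0]; norm_num)]
        rw [h0] at hmain
        rw [hmain, h0]
        simp [wgt]
      · rw [hother 0 (by norm_num) (by rw [h0]; norm_num),
          hother 1 (by norm_num) (by rw [h0]; norm_num)]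
        rw [h0] at hmain
        rw [hmain, h0]
        simp [wgt]
    · intro hno
      have hz : ∀ e : ℤ, |e| ≤ 1 → cf n a s (m - e * n i) = 0 := by
        intro e he
        apply (ih _).2
        intro η hη hs
        obtain ⟨h1, h2⟩ := ext e he η hη hs
        exact hno _ h1 h2
      rw [cf_insert n a hi]
      have q0 := hz 0 (by norm_num)
      have q1 := hz 1 (by norm_num)
      have q2 := hz (-1) (by norm_num)
      rw [zero_mul, sub_zero] at q0
      rw [one_mul] at q1
      rw [show m - -1 * n i = m + n i by ring] at q2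
      rw [q0, q1, q2]
      simp

/-! ### The limit measure -/

/-- The partial product as a measure. -/
def partMeas (n : ι → ℤ) (a : ι → ℝ) (s : Finset ι) : Measure Circ :=
  leb.withDensity fun t => ENNReal.ofReal (dens n a s t)

theorem integral_partMeas (ha : ∀ i, 0 ≤ a i ∧ a i ≤ 1 / 2) (s : Finset ι) (g : Circ → ℂ) :
    ∫ t, g t ∂(partMeas n a s) = ∫ t, g t * (dens n a s t : ℂ) ∂leb := by
  unfold partMeas
  rw [integral_withDensity_eq_integral_toReal_smul]
  · congr 1
    ext t
    rw [ENNReal.toReal_ofReal (dens_nonneg n a ha s t), Complex.real_smul, mul_comm]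
  · exact (ENNReal.continuous_ofReal.comp (continuous_dens n a s)).measurable
  · exact Eventually.of_forall fun t => ENNReal.ofReal_lt_top

theorem cf_zero (hn : Dissoc n) (s : Finset ι) : cf n a s 0 = 1 := by
  classical
  rw [((cf_eq hn s 0).1 (fun _ => 0) (by simp) (by simp))]
  simp [wgt]

theorem integral_dens (hn : Dissoc n) (s : Finset ι) : ∫ t, dens n a s t ∂leb = 1 := by
  have h := cf_zero (a := a) hn s
  unfold cf at h
  simp only [neg_zero, fourier_zero, one_mul] at h
  rw [integral_complex_ofReal] at h
  exact_mod_cast h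

theorem isProb_partMeas (hn : Dissoc n) (ha : ∀ i, 0 ≤ a i ∧ a i ≤ 1 / 2) (s : Finset ι) :
    IsProbabilityMeasure (partMeas n a s) := by
  constructor
  unfold partMeas
  rw [withDensity_apply _ MeasurableSet.univ, Measure.restrict_univ,
    ← ofReal_integral_eq_lintegral_ofReal, integral_dens hn s, ENNReal.ofReal_one]
  · apply Continuous.integrable_of_hasCompactSupport (continuous_dens n a s)
    exact HasCompactSupport.of_compactSpace _
  · exact Eventually.of_forall fun t => dens_nonneg n a ha s t

/-- The Riesz product measure exists. -/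
theorem exists_riesz (hn : Dissoc n) (ha : ∀ i, 0 ≤ a i ∧ a i ≤ 1 / 2) :
    ∃ μ : Measure Circ, IsProbabilityMeasure μ ∧
      (∀ (s : Finset ι) (ε : ι → ℤ), (∀ i ∈ s, |ε i| ≤ 1) →
        measCoeff μ (∑ i ∈ s, ε i * n i) = ∏ i ∈ s, wgt (a i) (ε i)) ∧
      (∀ m : ℤ, (∀ (s : Finset ι) (ε : ι → ℤ), (∀ i ∈ s, |ε i| ≤ 1) →
        ∑ i ∈ s, ε i * n i ≠ m) → measCoeff μ m = 0) := by
  classical
  set P : Finset ι → ProbabilityMeasure Circ := fun s =>
    ⟨partMeas n a s, isProb_partMeas hn ha s⟩ with hP
  set U : Ultrafilter (Finset ι) := Ultrafilter.of atTop with hU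
  have hUle : (U : Filter (Finset ι)) ≤ atTop := Ultrafilter.of_le atTop
  set μ : ProbabilityMeasure Circ := (Ultrafilter.map P U).lim with hμ
  have hlim : Tendsto P U (𝓝 μ) := (Ultrafilter.map P U).le_nhds_lim
  have hcoef : ∀ m : ℤ, Tendsto (fun s => cf n a s m) U (𝓝 (measCoeff μ m)) := by
    intro m
    have h := (ProbabilityMeasure.tendsto_iff_forall_integral_rclike_tendsto ℂ).1 hlim
      (BoundedContinuousFunction.mkOfCompact (fourier (-m)))
    have e : ∀ s, ∫ t, (BoundedContinuousFunction.mkOfCompact (fourier (-m))) t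
        ∂(P s : Measure Circ) = cf n a s m := by
      intro s
      exact integral_partMeas ha s (fun t => fourier (-m) t)
    simp only [e] at h
    exact h
  refine ⟨μ, inferInstance, ?_, ?_⟩
  · intro s ε hε
    refine tendsto_nhds_unique (hcoef _) ?_
    refine tendsto_const_nhds.congr' ?_
    have : ∀ᶠ s' in (U : Filter (Finset ι)), s ⊆ s' := hUle (eventually_ge_atTop s)
    filter_upwards [this] with s' hs'
    have h1 := (cf_eq (a := a) hn s' (∑ i ∈ s, ε i * n i)).1 (fun i => if i ∈ s then ε i else 0) (by
      intro i _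
      split_ifs with h
      · exact hε i h
      · simp) (by
      symm
      rw [← Finset.sum_subset hs' (f := fun i => (if i ∈ s then ε i else 0) * n i)]
      · exact sum_congr rfl fun i hi => by rw [if_pos hi]
      · intro i _ hi
        rw [if_neg hi, zero_mul])
    rw [h1]
    rw [← Finset.prod_subset hs' (f := fun i => wgt (a i) (if i ∈ s then ε i else 0))]
    · exact prod_congr rfl fun i hi => by rw [if_pos hi]
    · intro i _ hi
      rw [if_neg hi, wgt, if_pos rfl]
  · intro m hm
    refine tendsto_nhds_unique (hcoef _) ?_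
    refine tendsto_const_nhds.congr fun s => ?_
    exact ((cf_eq (a := a) hn s m).2 (hm s)).symm

/-- A Riesz product whose coefficients tend to zero is Rajchman. -/
theorem rajchman_of_riesz {μ : Measure Circ} (ha : ∀ i, 0 ≤ a i ∧ a i ≤ 1 / 2)
    (ha0 : ∀ δ > 0, {i | δ ≤ a i}.Finite)
    (h1 : ∀ (s : Finset ι) (ε : ι → ℤ), (∀ i ∈ s, |ε i| ≤ 1) →
        measCoeff μ (∑ i ∈ s, ε i * n i) = ∏ i ∈ s, wgt (a i) (ε i))
    (h2 : ∀ m : ℤ, (∀ (s : Finset ι) (ε : ι → ℤ), (∀ i ∈ s, |ε i| ≤ 1) →
        ∑ i ∈ s, ε i * n i ≠ m) → measCoeff μ m = 0) : IsRajchman μ := by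
  classical
  unfold IsRajchman
  rw [Metric.tendsto_nhds]
  intro δ hδ
  rw [Filter.eventually_cofinite]
  set F : Finset ι := (ha0 δ hδ).toFinset with hF
  have hfin : (Set.range fun ε : F → Fin 3 =>
      ∑ i : F, (((ε i : ℕ) : ℤ) - 1) * n i).Finite := Set.finite_range _
  refine hfin.subset ?_
  intro m hm
  rw [Set.mem_ofPred_eq, dist_zero_right, not_lt] at hm
  have hne : measCoeff μ m ≠ 0 := by
    intro h0
    rw [h0, norm_zero] at hm
    linarith
  have : ∃ (s : Finset ι) (ε : ι → ℤ), (∀ i ∈ s, |ε i| ≤ 1) ∧ ∑ i ∈ s, ε i * n i = m := by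
    by_contra hcon
    push Not at hcon
    exact hne (h2 m hcon)
  obtain ⟨s, ε, hε, hs⟩ := this
  rw [← hs, h1 s ε hε] at hm
  -- every index with nonzero coefficient lies in `F`
  have hmem : ∀ i ∈ s, ε i ≠ 0 → i ∈ F := by
    intro i hi hi0
    rw [hF, Set.Finite.mem_toFinset, Set.mem_ofPred_eq]
    refine hm.trans ?_
    rw [norm_prod, ← mul_prod_erase s _ hi]
    have e1 : ‖wgt (a i) (ε i)‖ = a i := by
      rw [wgt, if_neg hi0, Complex.norm_real, Real.norm_of_nonneg (ha i).1]
    rw [e1]
    have e2 : ∏ j ∈ s.erase i, ‖wgt (a j) (ε j)‖ ≤ 1 := by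
      refine prod_le_one (fun _ _ => norm_nonneg _) fun j _ => ?_
      unfold wgt
      split_ifs
      · simp
      · rw [Complex.norm_real, Real.norm_of_nonneg (ha j).1]
        linarith [(ha j).2]
    exact mul_le_of_le_one_right (ha i).1 e2
  rw [← hs, Set.mem_range]
  set η : ι → ℤ := fun i => if i ∈ s then ε i else 0 with hη
  have hη1 : ∀ i, |η i| ≤ 1 := by
    intro i
    simp only [hη]
    split_ifs with h
    · exact hε i h
    · simp
  refine ⟨fun i => ⟨(η i + 1).toNat, ?_⟩, ?_⟩
  · have := abs_le.1 (hη1 i)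
    omega
  · have e1 : ∀ i : F, (((η i + 1).toNat : ℕ) : ℤ) - 1 = η i := by
      intro i
      have := abs_le.1 (hη1 i)
      omega
    simp only [e1]
    rw [Finset.sum_coe_sort F (fun i => η i * n i)]
    -- compare sums over `F` and `s`
    have h3 : ∑ i ∈ F, η i * n i = ∑ i ∈ F ∪ s, η i * n i := by
      apply Finset.sum_subset subset_union_left
      intro i hi hiF
      have his : i ∈ s := (mem_union.1 hi).resolve_left hiF
      have : ε i = 0 := by
        by_contra h0
        exact hiF (hmem i his h0)
      simp only [hη, if_pos his, this, zero_mul]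
    have h4 : ∑ i ∈ s, η i * n i = ∑ i ∈ F ∪ s, η i * n i := by
      apply Finset.sum_subset subset_union_right
      intro i _ his
      simp only [hη, if_neg his, zero_mul]
    rw [h3, ← h4]
    refine sum_congr rfl fun i hi => ?_
    simp only [hη, if_pos hi]

end Pool.Agent.RieszDisc
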