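import Pool.Agent.RieszDisc.Conv
import Pool.Agent.RieszDisc.Abstract

/-!
# The spectrum of the convolution operator
-/

noncomputable section

namespace Pool.Agent.RieszDisc

open MeasureTheory AddCircle Filter Topology Finset
open scoped ComplexConjugate

theorem integrable_fourier_mul {f : Circ → ℂ} (hf : Integrable f leb) (m : ℤ) :
    Integrable (fun t => (fourier m t : ℂ) * f t) leb :=
  hf.fourier_smul m

theorem lipschitz_fourierCoeff (m : ℤ) :
    LipschitzWith 1 fun f : Lp ℂ 1 leb => fourierCoeff (f : Circ → ℂ) m := by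
  apply LipschitzWith.of_dist_le_mul
  intro f g
  rw [dist_eq_norm, dist_eq_norm, NNReal.coe_one, one_mul, L1.norm_eq_integral_norm]
  unfold fourierCoeff
  simp only [smul_eq_mul]
  rw [← integral_sub (integrable_fourier_mul (L1.integrable_coeFn f) (-m))
    (integrable_fourier_mul (L1.integrable_coeFn g) (-m))]
  refine (norm_integral_le_integral_norm _).trans (le_of_eq ?_)
  refine integral_congr_ae ?_
  filter_upwards [Lp.coeFn_sub f g] with t ht
  rw [ht, Pi.sub_apply, ← mul_sub, norm_mul, norm_fourier_apply, one_mul]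

theorem isClosed_H10 : IsClosed (H10 : Set (Lp ℂ 1 leb)) := by
  have : (H10 : Set (Lp ℂ 1 leb)) =
      ⋂ m : ℤ, ⋂ _ : m ≤ 0, (fun f : Lp ℂ 1 leb => fourierCoeff (f : Circ → ℂ) m) ⁻¹' {0} := by
    ext f
    simp only [Set.mem_iInter]
    rfl
  rw [this]
  exact isClosed_iInter fun m => isClosed_iInter fun _ =>
    isClosed_singleton.preimage (lipschitz_fourierCoeff m).continuous

instance : CompleteSpace H10 := isClosed_H10.completeSpace_coe

variable {μ : Measure Circ} [IsProbabilityMeasure μ]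

/-- The pairing estimate on `L^1`. -/
theorem pairing_le {w : ℂ} {η : ℝ} {φ : Circ → ℂ} (hφ : Continuous φ)
    (hφ1 : ∀ t, ‖∫ y, φ (t + y) ∂μ - w * φ t‖ ≤ η) (k : Lp ℂ 1 leb) :
    ‖∫ t, φ t * (w • k - cvL μ k : Lp ℂ 1 leb) t ∂leb‖ ≤ η * ‖k‖ := by
  obtain ⟨B, hB⟩ : ∃ B, ∀ x, ‖φ x‖ ≤ B := by
    obtain ⟨B, hB⟩ := (isCompact_range hφ).isBounded.exists_norm_le
    exact ⟨B, fun x => hB _ ⟨x, rfl⟩⟩
  have hki : Integrable (k : Circ → ℂ) leb := L1.integrable_coeFn k
  have hae : ((w • k - cvL μ k : Lp ℂ 1 leb) : Circ → ℂ) =ᵐ[leb]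
      fun t => w * k t - cv μ k t := by
    filter_upwards [Lp.coeFn_sub (w • k) (cvL μ k), Lp.coeFn_smul w k,
      coeFn_cvL (μ := μ) k] with t h2 h3 h4
    rw [h2, Pi.sub_apply, h3, h4]
    rfl
  have i1 : Integrable (fun t => φ t * (w * k t)) leb :=
    (hki.const_mul w).bdd_mul hφ.aestronglyMeasurable (Eventually.of_forall hB)
  have i2 : Integrable (fun t => φ t * cv μ k t) leb :=
    (integrable_cv hki).bdd_mul hφ.aestronglyMeasurable (Eventually.of_forall hB)
  have hAc : Continuous fun t => ∫ y, φ (t + y) ∂μ := by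
    refine continuous_of_dominated (bound := fun _ => B) ?_ ?_ ?_ ?_
    · intro t
      exact (hφ.comp (continuous_const.add continuous_id)).aestronglyMeasurable
    · intro t
      exact Eventually.of_forall fun y => hB _
    · exact integrable_const _
    · exact Eventually.of_forall fun y => hφ.comp (continuous_id.add continuous_const)
  have hAB : ∀ t, ‖∫ y, φ (t + y) ∂μ‖ ≤ B := by
    intro t
    refine (norm_integral_le_integral_norm _).trans ?_
    calc ∫ y, ‖φ (t + y)‖ ∂μ ≤ ∫ _, B ∂μ := by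
          refine integral_mono ?_ (integrable_const _) fun y => hB _
          exact integrable_cont (hφ.comp (continuous_const.add continuous_id)).norm
      _ = B := by rw [integral_const]; simp
  have i3 : Integrable (fun t => (∫ y, φ (t + y) ∂μ) * k t) leb :=
    hki.bdd_mul hAc.aestronglyMeasurable (Eventually.of_forall hAB)
  have e1 : ∫ t, φ t * (w • k - cvL μ k : Lp ℂ 1 leb) t ∂leb =
      -∫ t, (∫ y, φ (t + y) ∂μ - w * φ t) * k t ∂leb := by
    calc ∫ t, φ t * (w • k - cvL μ k : Lp ℂ 1 leb) t ∂leb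
        = ∫ t, (φ t * (w * k t) - φ t * cv μ k t) ∂leb := by
          refine integral_congr_ae ?_
          filter_upwards [hae] with t ht
          rw [ht]
          ring
      _ = ∫ t, φ t * (w * k t) ∂leb - ∫ t, φ t * cv μ k t ∂leb := integral_sub i1 i2
      _ = ∫ t, φ t * (w * k t) ∂leb - ∫ t, (∫ y, φ (t + y) ∂μ) * k t ∂leb := by
          rw [test_cv hki hφ]
      _ = -(∫ t, (∫ y, φ (t + y) ∂μ) * k t ∂leb - ∫ t, φ t * (w * k t) ∂leb) := by ring
      _ = -∫ t, ((∫ y, φ (t + y) ∂μ) * k t - φ t * (w * k t)) ∂leb := by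
          rw [integral_sub i3 i1]
      _ = _ := by
          congr 1
          refine integral_congr_ae (Eventually.of_forall fun t => ?_)
          show (∫ y, φ (t + y) ∂μ) * k t - φ t * (w * k t) = (∫ y, φ (t + y) ∂μ - w * φ t) * k t
          ring
  rw [e1, norm_neg]
  refine (norm_integral_le_integral_norm _).trans ?_
  rw [L1.norm_eq_integral_norm, ← integral_const_mul]
  refine integral_mono_of_nonneg (Eventually.of_forall fun t => norm_nonneg _)
    (hki.norm.const_mul _) (Eventually.of_forall fun t => ?_)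
  show ‖(∫ y, φ (t + y) ∂μ - w * φ t) * k t‖ ≤ _
  rw [norm_mul]
  exact mul_le_mul_of_nonneg_right (hφ1 t) (norm_nonneg _)

theorem mem_spectrum_of {w : ℂ}
    (h : ∀ η > 0, ∃ φ : Circ → ℂ, Continuous φ ∧
      (∀ t, ‖∫ y, φ (t + y) ∂μ - w * φ t‖ ≤ η) ∧
      ∃ g : H10, ‖g‖ ≤ 1 ∧ 1 / 2 ≤ ‖∫ t, φ t * (g : Lp ℂ 1 leb) t ∂leb‖) :
    w ∈ opSpectrum (convOp μ) := by
  apply mem_opSpectrum_of
  intro η hη
  obtain ⟨φ, hφ, hφ1, g, hg, hg1⟩ := h η hη
  exact ⟨fun k => ∫ t, φ t * (k : Lp ℂ 1 leb) t ∂leb,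
    fun k => pairing_le hφ hφ1 (k : Lp ℂ 1 leb), g, hg, hg1⟩

end Pool.Agent.RieszDisc
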