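import Pool.Agent.RieszDisc.Main

/-!
# The Hardy space as a normed space, and convolution operators on it
-/

namespace Pool.Agent.RieszDisc

open MeasureTheory

/-- The space `L^1(𝕋)` of classes of complex integrable functions on the circle. -/
def L1Circ : Type := Lp ℂ 1 leb

/-- The `L^1` norm. -/
noncomputable instance instNormedAddCommGroupL1Circ : NormedAddCommGroup L1Circ :=
  Lp.instNormedAddCommGroup (E := ℂ) (p := 1) (μ := leb)

/-- The complex vector space structure of `L^1(𝕋)`. -/
noncomputable instance instNormedSpaceL1Circ : NormedSpace ℂ L1Circ :=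
  Lp.instNormedSpace (𝕜 := ℂ) (E := ℂ) (p := 1) (μ := leb)

/-- A function representing an element of `L^1(𝕋)`. -/
noncomputable def L1Circ.fn (f : L1Circ) : Circ → ℂ :=
  AEEqFun.cast (Subtype.val (p := fun g => g ∈ Lp ℂ 1 leb) f)

/-- The Fourier coefficients of index `≤ 0` vanish. -/
def NegCoeffZero (f : L1Circ) : Prop := ∀ n : ℤ, n ≤ 0 → fourierCoeff f.fn n = 0

theorem negCoeffZero_zero : NegCoeffZero 0 := H10.zero_mem

theorem negCoeffZero_add {f g : L1Circ} (hf : NegCoeffZero f) (hg : NegCoeffZero g) :
    NegCoeffZero (f + g) := H10.add_mem hf hg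

theorem negCoeffZero_smul (c : ℂ) {f : L1Circ} (hf : NegCoeffZero f) :
    NegCoeffZero (c • f) := H10.smul_mem c hf

/-- The space `H^1_0(𝕋)`: the elements of `L^1(𝕋)` whose Fourier coefficients of index `≤ 0`
vanish. -/
noncomputable def HardySubmodule : Submodule ℂ L1Circ where
  carrier := {f | NegCoeffZero f}
  zero_mem' := negCoeffZero_zero
  add_mem' := negCoeffZero_add
  smul_mem' := negCoeffZero_smul

/-- The space `H^1_0(𝕋)` as a type. -/
def Hardy : Type := HardySubmodule

/-- The norm of `H^1_0` is the `L^1` norm. -/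
noncomputable instance instNormedAddCommGroupHardy : NormedAddCommGroup Hardy :=
  Submodule.normedAddCommGroup HardySubmodule

/-- The complex vector space structure of `H^1_0`. -/
noncomputable instance instNormedSpaceHardy : NormedSpace ℂ Hardy :=
  Submodule.normedSpace HardySubmodule

/-- A function representing an element of `H^1_0`. -/
noncomputable def Hardy.fn (f : Hardy) : Circ → ℂ :=
  L1Circ.fn (Subtype.val (p := fun g => g ∈ HardySubmodule) f)

/-- `T` is the operator of convolution by `μ` on `H^1_0`:
`(T f)(x) = ∫ f (x - y) dμ(y)` for almost every `x`. -/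
def IsConvolutionBy (μ : Measure Circ) (T : Hardy →L[ℂ] Hardy) : Prop :=
  ∀ f : Hardy, ∀ᵐ x ∂leb, (T f).fn x = ∫ y, f.fn (x - y) ∂μ

end Pool.Agent.RieszDisc
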