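import Pool.Agent.RieszDisc.Spec
import Pool.Agent.RieszDisc.Riesz

/-!
# Test functions in `H^1_0`
-/

noncomputable section

namespace Pool.Agent.RieszDisc

open MeasureTheory AddCircle Filter Topology Finset
open scoped ComplexConjugate

/-- The peaking function `(1 + cos t) / 2`. -/
def peak (t : Circ) : ℝ := (1 + (fourier 1 t : ℂ).re) / 2

theorem continuous_peak : Continuous peak := by
  unfold peak
  exact (continuous_const.add (Complex.continuous_re.comp (map_continuous (fourier 1)))).div_const _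

theorem abs_re_fourier_le (m : ℤ) (t : Circ) : |(fourier m t : ℂ).re| ≤ 1 := by
  refine (Complex.abs_re_le_norm _).trans ?_
  rw [norm_fourier_apply]

theorem peak_nonneg (t : Circ) : 0 ≤ peak t := by
  have := (abs_le.1 (abs_re_fourier_le 1 t)).1
  unfold peak
  linarith

theorem peak_le_one (t : Circ) : peak t ≤ 1 := by
  have := (abs_le.1 (abs_re_fourier_le 1 t)).2
  unfold peak
  linarith

theorem peak_zero : peak 0 = 1 := by
  unfold peak
  rw [fourier_eval_zero]
  norm_num

theorem peak_lt {t : Circ} (ht : t ≠ 0) : peak t < 1 := by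
  refine lt_of_le_of_ne (peak_le_one t) ?_
  intro h
  apply ht
  have h1 : (fourier 1 t : ℂ).re = 1 := by
    unfold peak at h
    linarith
  have h2 : (fourier 1 t : ℂ) = 1 := by
    have hn := norm_fourier_apply 1 t
    have h3 := Complex.sq_norm (fourier 1 t : ℂ)
    rw [Complex.normSq_apply, hn, h1] at h3
    have h4 : (fourier 1 t : ℂ).im = 0 := by nlinarith
    exact Complex.ext h1 h4
  apply injective_toCircle (T := 2 * Real.pi) (by positivity)
  rw [toCircle_zero]
  rw [fourier_one] at h2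
  exact Circle.ext (by rw [h2, Circle.coe_one])

/-- The integral of a power of the peaking function. -/
def peakInt (p : ℕ) : ℝ := ∫ t, peak t ^ p ∂leb

theorem peakInt_pos (p : ℕ) : 0 < peakInt p := by
  unfold peakInt
  have hc : Continuous fun t => peak t ^ p := continuous_peak.pow p
  refine hc.integral_pos_of_hasCompactSupport_nonneg_nonzero
    (HasCompactSupport.of_compactSpace _) (fun t => pow_nonneg (peak_nonneg t) p) (x := 0) ?_
  simp [peak_zero]

theorem exists_peak {G : Circ → ℂ} (hG : Continuous G) (hG1 : G 0 = 1) :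
    ∃ p : ℕ, 1 / 2 ≤ ‖∫ t, ((peakInt p)⁻¹ * peak t ^ p : ℝ) * G t ∂leb‖ := by
  have h := tendsto_setIntegral_pow_smul_of_unique_maximum_of_isCompact_of_continuousOn
    (μ := leb) (s := Set.univ) (x₀ := (0 : Circ)) isCompact_univ continuous_peak.continuousOn
    (fun y _ hy => by rw [peak_zero]; exact peak_lt hy) (fun x _ => peak_nonneg x)
    (by rw [peak_zero]; norm_num) (by simp) hG.continuousOn
  rw [hG1] at h
  have h2 := (h.norm).eventually (eventually_ge_nhds (show (1 / 2 : ℝ) < ‖(1 : ℂ)‖ by norm_num))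
  obtain ⟨p, hp⟩ := h2.exists
  refine ⟨p, ?_⟩
  refine hp.trans (le_of_eq ?_)
  congr 1
  rw [Measure.restrict_univ]
  unfold peakInt
  rw [Complex.real_smul, ← integral_const_mul]
  congr 1
  ext t
  rw [Complex.real_smul]
  push_cast
  ring

theorem mp_zsmul {q : ℤ} (hq : q ≠ 0) : MeasurePreserving (fun t : Circ => q • t) leb leb :=
  Measure.measurePreserving_zsmul leb hq

theorem integral_comp_zsmul {q : ℤ} (hq : q ≠ 0) {E : Type*} [NormedAddCommGroup E]
    [NormedSpace ℝ E] {f : Circ → E} (hf : Continuous f) :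
    ∫ t, f (q • t) ∂leb = ∫ t, f t ∂leb := by
  conv_rhs => rw [← (mp_zsmul hq).map_eq]
  rw [integral_map (mp_zsmul hq).measurable.aemeasurable]
  rw [(mp_zsmul hq).map_eq]
  exact hf.aestronglyMeasurable_of_compactSpace

/-- The test function in `H^1_0`. -/
def gfun (q N : ℤ) (p : ℕ) (t : Circ) : ℂ :=
  ((peakInt p)⁻¹ * peak (q • t) ^ p : ℝ) * fourier (q * N) t

theorem continuous_gfun (q N : ℤ) (p : ℕ) : Continuous (gfun q N p) := by
  unfold gfun
  exact (Complex.continuous_ofReal.comp (continuous_const.mul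
    ((continuous_peak.comp (continuous_zsmul q)).pow p))).mul (map_continuous _)

theorem fourier_mul_nat (q : ℤ) (l : ℕ) (t : Circ) :
    (fourier (q * l) t : ℂ) = (fourier q t) ^ l := by
  induction l with
  | zero => simp
  | succ l ih =>
    rw [pow_succ, ← ih, ← fourier_add]
    congr 2
    push_cast
    ring

theorem peak_mul (q : ℤ) (t : Circ) :
    (peak (q • t) : ℂ) * fourier q t = (fourier q t + 1) ^ 2 / 4 := by
  have h1 : (fourier 1 (q • t) : ℂ) = fourier q t := by
    rw [fourier_apply, fourier_apply, one_zsmul]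
  unfold peak
  rw [h1]
  set z : ℂ := fourier q t with hz
  have h2 : z * conj z = 1 := by
    rw [Complex.mul_conj', hz, norm_fourier_apply]
    simp
  have h3 : (2 * (z.re : ℂ)) = z + conj z := by
    rw [Complex.add_conj]
    push_cast
    ring
  push_cast
  have h4 : (z.re : ℂ) = (z + conj z) / 2 := by rw [← h3]; ring
  rw [h4]
  linear_combination h2 / 4

theorem gfun_eq (q N : ℤ) (p : ℕ) (t : Circ) :
    gfun q N p t = ∑ l ∈ range (2 * p + 1),
      (((peakInt p)⁻¹ : ℝ) * (((2 * p).choose l : ℂ)) / 4 ^ p) * fourier (q * (N - p + l)) t := by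
  unfold gfun
  have h1 : (fourier (q * N) t : ℂ) = (fourier q t) ^ p * fourier (q * (N - p)) t := by
    rw [← fourier_mul_nat, ← fourier_add]
    congr 2
    ring
  have h2 : ((peak (q • t) : ℂ)) ^ p * (fourier q t) ^ p = (fourier q t + 1) ^ (2 * p) / 4 ^ p := by
    rw [← mul_pow, peak_mul, div_pow, pow_mul]
  rw [h1]
  push_cast
  have h3 : ((peakInt p : ℂ)⁻¹ * (peak (q • t) : ℂ) ^ p) *
      ((fourier q t) ^ p * fourier (q * (N - p)) t) =
      (peakInt p : ℂ)⁻¹ * ((fourier q t + 1) ^ (2 * p) / 4 ^ p) * fourier (q * (N - p)) t := by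
    rw [← h2]; ring
  rw [h3, add_pow, sum_div, mul_sum, sum_mul]
  refine sum_congr rfl fun l _ => ?_
  have h4 : (fourier (q * (N - p + l)) t : ℂ) = (fourier q t) ^ l * fourier (q * (N - p)) t := by
    rw [← fourier_mul_nat, ← fourier_add]
    congr 2
    ring
  rw [h4, one_pow]
  ring

theorem fourierCoeff_gfun {q N : ℤ} {p : ℕ} (hq : 0 < q) (hN : (p : ℤ) < N) {m : ℤ} (hm : m ≤ 0) :
    fourierCoeff (gfun q N p) m = 0 := by
  unfold fourierCoeff
  have h : ∀ t, (fourier (-m) t : ℂ) • gfun q N p t = ∑ l ∈ range (2 * p + 1),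
      (((peakInt p)⁻¹ : ℝ) * (((2 * p).choose l : ℂ)) / 4 ^ p) *
        fourier (-(m - q * (N - p + l))) t := by
    intro t
    rw [gfun_eq, smul_eq_mul, mul_sum]
    refine sum_congr rfl fun l _ => ?_
    have : (fourier (-(m - q * (N - p + l))) t : ℂ) =
        fourier (-m) t * fourier (q * (N - p + l)) t := by
      rw [← fourier_add]
      congr 2
      ring
    rw [this]
    ring
  simp only [h]
  rw [integral_finsetSum]
  · refine sum_eq_zero fun l _ => ?_
    rw [integral_const_mul, integral_fourier, if_neg, mul_zero]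
    have : 0 < q * (N - p + l) := by
      apply mul_pos hq
      have : (0 : ℤ) ≤ l := by positivity
      linarith
    intro h0
    linarith
  · intro l _
    exact (integrable_cont (map_continuous _)).const_mul _

theorem integrable_gfun (q N : ℤ) (p : ℕ) : Integrable (gfun q N p) leb :=
  integrable_cont (continuous_gfun q N p)

/-- The test function as an element of `H^1_0`. -/
def gH {q N : ℤ} {p : ℕ} (hq : 0 < q) (hN : (p : ℤ) < N) : H10 :=
  ⟨Integrable.toL1 (gfun q N p) (integrable_gfun q N p), by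
    intro m hm
    rw [fourierCoeff_congr_ae (Integrable.coeFn_toL1 _)]
    exact fourierCoeff_gfun hq hN hm⟩

theorem coeFn_gH {q N : ℤ} {p : ℕ} (hq : 0 < q) (hN : (p : ℤ) < N) :
    ((gH hq hN : Lp ℂ 1 leb) : Circ → ℂ) =ᵐ[leb] gfun q N p :=
  Integrable.coeFn_toL1 (integrable_gfun q N p)

theorem norm_gH {q N : ℤ} {p : ℕ} (hq : 0 < q) (hN : (p : ℤ) < N) : ‖gH hq hN‖ ≤ 1 := by
  show ‖(gH hq hN : Lp ℂ 1 leb)‖ ≤ 1
  rw [L1.norm_eq_integral_norm]
  have h1 : ∫ t, ‖(gH hq hN : Lp ℂ 1 leb) t‖ ∂leb =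
      ∫ t, (peakInt p)⁻¹ * peak (q • t) ^ p ∂leb := by
    refine integral_congr_ae ?_
    filter_upwards [coeFn_gH hq hN] with t ht
    rw [ht]
    unfold gfun
    rw [norm_mul, norm_fourier_apply, mul_one, Complex.norm_real, Real.norm_of_nonneg]
    exact mul_nonneg (inv_nonneg.2 (peakInt_pos p).le) (pow_nonneg (peak_nonneg _) p)
  rw [h1, integral_const_mul]
  have h2 := integral_comp_zsmul hq.ne' (f := fun t => peak t ^ p) (continuous_peak.pow p)
  have h3 : ∫ t, peak (q • t) ^ p ∂leb = peakInt p := h2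
  rw [h3, inv_mul_cancel₀ (peakInt_pos p).ne']

end Pool.Agent.RieszDisc
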